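import Pool.Agent.Helper26.UM.Stmts

/-!
# MP_7e6c00, row UPPER: the number of real functions on the subsets of an infinite set
-/

set_option autoImplicit false

namespace Pool.Agent.Helper55.UM

open Cardinal Set Pool.Agent.Helper63.INV Pool.Agent.Helper26.UM

universe u

theorem st_UPPER : ST_UPPER.{u} := by
  intro X _
  have h1 : #(Set X → ℝ) = Cardinal.lift.{u, 0} #ℝ ^ Cardinal.lift.{0, u} #(Set X) :=
    Cardinal.mk_arrow (Set X) ℝ
  have h2 : ℵ₀ ≤ (2 : Cardinal.{u}) ^ #X :=
    (Cardinal.aleph0_le_mk X).trans (Cardinal.cantor _).le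
  rw [h1, Cardinal.mk_set, Cardinal.mk_real, Cardinal.lift_continuum, Cardinal.lift_id',
    ← Cardinal.two_power_aleph0, ← Cardinal.power_mul, Cardinal.aleph0_mul_eq h2]

end Pool.Agent.Helper55.UM
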